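import Mathlib

set_option autoImplicit false

namespace Pool.Agent.Results.MP_e29efe_nt.Disproof

open Polynomial Finset

/-- Condition (A): some `|b i|` exceeds the sum of the other `|b j|`. -/
def CondA {d : ℕ} (b : Fin d → ℤ) : Prop := ∃ i, ∑ j ∈ univ.erase i, |b j| < |b i|

/-- Condition (B): some prime `p` divides all `b j`, `j ≠ i`, but not `b i`. -/
def CondB {d : ℕ} (b : Fin d → ℤ) : Prop :=
  ∃ i, ∃ p : ℕ, p.Prime ∧ ¬ (p : ℤ) ∣ b i ∧ ∀ j, j ≠ i → (p : ℤ) ∣ b j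

/-- `(α, a)` is a solution of `(R_b)`: `α ≠ 0` is algebraic over `ℚ` of degree `d`, `a` lists its `d` distinct
conjugates (the complex roots of its minimal polynomial, each once), and `∏ (a i) ^ (b i) = 1`. -/
def IsSolution {d : ℕ} (b : Fin d → ℤ) (α : ℂ) (a : Fin d → ℂ) : Prop :=
  α ≠ 0 ∧ IsAlgebraic ℚ α ∧ (minpoly ℚ α).natDegree = d ∧ Function.Injective a ∧
    Set.range a = (minpoly ℚ α).rootSet ℂ ∧ ∏ i, a i ^ b i = 1

/-- `α` is a root of unity. -/
def RootOfUnity (α : ℂ) : Prop := ∃ n : ℕ, 0 < n ∧ α ^ n = 1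

/-- The vector `(c, …, c, 2c)`. -/
def bvec (d : ℕ) (c : ℕ) : Fin d → ℤ := fun i => if (i : ℕ) + 1 = d then 2 * (c : ℤ) else (c : ℤ)

/-- The assertion of Q1. -/
def Q1 : Prop := ∀ d : ℕ, 1 ≤ d → ∀ b : Fin d → ℤ, ¬ CondA b → ¬ CondB b →
  ∃ (α : ℂ) (a : Fin d → ℂ), IsSolution b α a ∧ ¬ RootOfUnity α

lemma not_A (d c : ℕ) (hd : 3 ≤ d) (hc : 1 ≤ c) : ¬ CondA (bvec d c) := by
  rintro ⟨i, hi⟩
  have hc' : (1 : ℤ) ≤ c := by exact_mod_cast hc
  have hb : ∀ j, (c : ℤ) ≤ |bvec d c j| := by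
    intro j; unfold bvec; split_ifs <;> rw [abs_of_nonneg (by linarith)] <;> linarith
  by_cases h : (i : ℕ) + 1 = d
  · have h1 : |bvec d c i| = 2 * (c : ℤ) := by
      unfold bvec; rw [if_pos h, abs_of_nonneg (by linarith)]
    have h2 : ∑ j ∈ univ.erase i, (c : ℤ) ≤ ∑ j ∈ univ.erase i, |bvec d c j| := Finset.sum_le_sum fun j _ => hb j
    rw [Finset.sum_const, Finset.card_erase_of_mem (Finset.mem_univ _), Finset.card_univ, Fintype.card_fin, nsmul_eq_mul] at h2
    have h3 : (2 : ℤ) ≤ ((d - 1 : ℕ) : ℤ) := by exact_mod_cast (by omega : 2 ≤ d - 1)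
    nlinarith
  · have h1 : |bvec d c i| = (c : ℤ) := by
      unfold bvec; rw [if_neg h, abs_of_nonneg (by linarith)]
    set l : Fin d := ⟨d - 1, by omega⟩ with hl
    have hmem : l ∈ univ.erase i := by
      rw [Finset.mem_erase]
      refine ⟨?_, Finset.mem_univ _⟩
      intro h'
      apply h
      rw [← h', hl]
      simp only
      omega
    have h2 : |bvec d c l| ≤ ∑ j ∈ univ.erase i, |bvec d c j| :=
      Finset.single_le_sum (f := fun j => |bvec d c j|) (fun j _ => abs_nonneg _) hmem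
    have := hb l
    linarith

lemma not_B (d c : ℕ) (hd : 3 ≤ d) : ¬ CondB (bvec d c) := by
  rintro ⟨i, p, hp, hi, hj⟩
  obtain ⟨j, hji, hjd⟩ : ∃ j : Fin d, j ≠ i ∧ (j : ℕ) + 1 ≠ d := by
    by_cases h : (i : ℕ) = 0
    · refine ⟨⟨1, by omega⟩, ?_, ?_⟩
      · intro h'; rw [← h'] at h; simp at h
      · simp only; omega
    · refine ⟨⟨0, by omega⟩, ?_, ?_⟩
      · intro h'; rw [← h'] at h; simp at h
      · simp only; omega
  have h1 := hj j hji
  unfold bvec at h1 hi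
  rw [if_neg hjd] at h1
  split_ifs at hi
  · exact hi (dvd_mul_of_dvd_right h1 _)
  · exact hi h1

lemma sol_root (d c : ℕ) (hd : 3 ≤ d) (hc : 1 ≤ c) (α : ℂ) (a : Fin d → ℂ) (h : IsSolution (bvec d c) α a) :
    RootOfUnity α := by
  obtain ⟨h0, halg, hdeg, hinj, hrange, hprod⟩ := h
  have hint : IsIntegral ℚ α := halg.isIntegral
  have hirr := minpoly.irreducible hint
  have hmon := minpoly.monic hint
  set f := minpoly ℚ α with hf
  have hroot : ∀ i, aeval (a i) f = 0 := by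
    intro i
    have : a i ∈ f.rootSet ℂ := by rw [← hrange]; exact Set.mem_range_self i
    exact (Polynomial.mem_rootSet.1 this).2
  have hαr : α ∈ Set.range a := by
    rw [hrange]
    exact Polynomial.mem_rootSet.2 ⟨hmon.ne_zero, minpoly.aeval ℚ α⟩
  have hne : ∀ i, a i ≠ 0 := by
    intro i h'
    have h1 := hroot i
    rw [h'] at h1
    have h2 : f.coeff 0 = 0 := by
      rw [← Polynomial.coeff_zero_eq_aeval_zero'] at h1
      exact_mod_cast (map_eq_zero (algebraMap ℚ ℂ)).1 h1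
    exact minpoly.coeff_zero_ne_zero hint h0 h2
  -- product of conjugates is rational
  obtain ⟨r, hr⟩ : ∃ r : ℚ, ∏ i, a i = (r : ℂ) := by
    have hsplit : (f.map (algebraMap ℚ ℂ)).Splits := IsAlgClosed.splits _
    have hroots : (f.map (algebraMap ℚ ℂ)).roots = (univ.image a).val := by
      have hnd : (f.map (algebraMap ℚ ℂ)).roots.Nodup :=
        Polynomial.nodup_roots (hirr.separable.map)
      rw [← Multiset.Nodup.dedup hnd]
      have : f.rootSet ℂ = ((f.map (algebraMap ℚ ℂ)).roots.toFinset : Set ℂ) := by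
        rw [Polynomial.rootSet, Polynomial.aroots]
      have h2 : (f.map (algebraMap ℚ ℂ)).roots.toFinset = univ.image a := by
        apply Finset.coe_injective
        rw [← this, ← hrange]; simp
      rw [← Multiset.toFinset_val, h2]
    have h1 := hsplit.coeff_zero_eq_prod_roots_of_monic (hmon.map (algebraMap ℚ ℂ))
    rw [hroots] at h1
    have h2 : (univ.image a).val.prod = ∏ i, a i := by
      rw [Finset.prod_val, Finset.prod_image (fun x _ y _ hxy => hinj hxy)]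
      rfl
    rw [h2, Polynomial.coeff_map] at h1
    refine ⟨(-1) ^ (f.map (algebraMap ℚ ℂ)).natDegree * f.coeff 0, ?_⟩
    have h3 : ((-1 : ℂ) ^ (f.map (algebraMap ℚ ℂ)).natDegree) * (-1 : ℂ) ^ (f.map (algebraMap ℚ ℂ)).natDegree = 1 := by
      rw [← mul_pow]; norm_num
    have h4 : (algebraMap ℚ ℂ) (f.coeff 0) = ((f.coeff 0 : ℚ) : ℂ) := rfl
    rw [h4] at h1
    push_cast
    rw [h1, ← mul_assoc, h3, one_mul]
  have hr0 : (r : ℂ) ≠ 0 := by
    rw [← hr]; exact Finset.prod_ne_zero_iff.2 fun i _ => hne i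
  have hr0' : r ≠ 0 := by exact_mod_cast hr0
  set l : Fin d := ⟨d - 1, by omega⟩ with hl
  -- the relation gives (r * a l) ^ c = 1
  have hrel : ((r : ℂ) * a l) ^ c = 1 := by
    have e1 : ∀ i, a i ^ bvec d c i = a i ^ c * (if i = l then a l ^ c else 1) := by
      intro i
      unfold bvec
      by_cases h : i = l
      · have h' : (i : ℕ) + 1 = d := by rw [h, hl]; simp only; omega
        rw [if_pos h', if_pos h, ← h, two_mul, zpow_add₀ (hne i), zpow_natCast]
      · have h' : ¬ (i : ℕ) + 1 = d := by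
          intro h''
          apply h
          apply Fin.ext
          rw [hl]; simp only; omega
        rw [if_neg h', if_neg h, mul_one, zpow_natCast]
    rw [Finset.prod_congr rfl (fun i _ => e1 i), Finset.prod_mul_distrib, Finset.prod_ite_eq' , if_pos (Finset.mem_univ _),
      Finset.prod_pow, hr] at hprod
    rw [mul_pow]; exact hprod
  -- every conjugate satisfies x ^ c = r ^ (-c)
  have hall : ∀ i, a i ^ c = (((r ^ c)⁻¹ : ℚ) : ℂ) := by
    have hl' : aeval (a l) (X ^ c - C ((r ^ c)⁻¹) : ℚ[X]) = 0 := by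
      rw [map_sub, map_pow, aeval_X, aeval_C]
      rw [mul_pow] at hrel
      have h4 : (algebraMap ℚ ℂ) ((r ^ c)⁻¹) = (((r ^ c)⁻¹ : ℚ) : ℂ) := rfl
      rw [h4]
      push_cast
      have hrc : (r : ℂ) ^ c ≠ 0 := pow_ne_zero _ hr0
      rw [sub_eq_zero]
      field_simp
      linear_combination hrel
    have hmin : f = minpoly ℚ (a l) := minpoly.eq_of_irreducible_of_monic hirr (hroot l) hmon
    have hdvd : f ∣ (X ^ c - C ((r ^ c)⁻¹) : ℚ[X]) := by
      rw [hmin]; exact minpoly.dvd ℚ (a l) hl'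
    intro i
    obtain ⟨g, hg⟩ := hdvd
    have h5 : aeval (a i) (X ^ c - C ((r ^ c)⁻¹) : ℚ[X]) = 0 := by
      rw [hg, map_mul, hroot i, zero_mul]
    rw [map_sub, map_pow, aeval_X, aeval_C, sub_eq_zero] at h5
    exact h5
  -- multiply over all conjugates
  have hrr : r ^ c = ((r ^ c)⁻¹) ^ d := by
    have h5 : (∏ i, a i) ^ c = (((r ^ c)⁻¹ : ℚ) : ℂ) ^ d := by
      rw [← Finset.prod_pow, Finset.prod_congr rfl (fun i _ => hall i), Finset.prod_const, Finset.card_univ, Fintype.card_fin]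
    rw [hr] at h5
    exact_mod_cast h5
  have hpow : (r ^ c) ^ (d + 1) = 1 := by
    have hrc : r ^ c ≠ 0 := pow_ne_zero _ hr0'
    rw [pow_succ]
    nth_rewrite 2 [hrr]
    rw [← mul_pow, mul_inv_cancel₀ hrc, one_pow]
  have hsq : (r ^ c) ^ 2 = 1 := by
    have h6 : |r ^ c| ^ (d + 1) = 1 := by rw [← abs_pow, hpow, abs_one]
    have h7 : |r ^ c| = 1 := (pow_eq_one_iff_of_nonneg (abs_nonneg _) (by omega)).1 h6
    rw [← sq_abs, h7, one_pow]
  obtain ⟨i, rfl⟩ := hαr
  refine ⟨c * 2, by omega, ?_⟩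
  rw [pow_mul, hall i]
  have : ((r ^ c)⁻¹) ^ 2 = 1 := by rw [inv_pow, hsq, inv_one]
  exact_mod_cast this

lemma exists_sol : ∃ (α : ℂ) (a : Fin 4 → ℂ), IsSolution (bvec 4 5) α a := by
  have h5 : (5 : ℕ) ≠ 0 := by norm_num
  set ζ : ℂ := Complex.exp (2 * Real.pi * Complex.I / (5 : ℕ)) with hζ
  have hprim : IsPrimitiveRoot ζ 5 := Complex.isPrimitiveRoot_exp 5 h5
  have hmin : minpoly ℚ ζ = cyclotomic 5 ℚ := (Polynomial.cyclotomic_eq_minpoly_rat hprim (by norm_num)).symm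
  have hdeg : (minpoly ℚ ζ).natDegree = 4 := by
    rw [hmin, natDegree_cyclotomic]; decide
  have hint : IsIntegral ℚ ζ := (hprim.isIntegral (by norm_num)).tower_top
  have hirr := minpoly.irreducible hint
  have hcard : Fintype.card ((minpoly ℚ ζ).rootSet ℂ) = 4 := by
    rw [← hdeg]
    exact Polynomial.card_rootSet_eq_natDegree hirr.separable (IsAlgClosed.splits _)
  have e : Fin 4 ≃ (minpoly ℚ ζ).rootSet ℂ := (Fintype.equivFinOfCardEq hcard).symm
  refine ⟨ζ, fun i => (e i : ℂ), hprim.ne_zero h5, hint.isAlgebraic, hdeg, ?_, ?_, ?_⟩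
  · exact Subtype.val_injective.comp e.injective
  · ext x
    constructor
    · rintro ⟨i, rfl⟩; exact (e i).2
    · intro hx
      exact ⟨e.symm ⟨x, hx⟩, by simp⟩
  · have hx5 : ∀ x : ℂ, aeval x (minpoly ℚ ζ) = 0 → x ^ 5 = 1 := by
      intro x h2
      rw [hmin] at h2
      have h3 : (cyclotomic 5 ℚ) ∣ X ^ 5 - 1 := cyclotomic.dvd_X_pow_sub_one 5 ℚ
      obtain ⟨g, hg⟩ := h3
      have h4 : aeval x (X ^ 5 - 1 : ℚ[X]) = 0 := by rw [hg, map_mul, h2, zero_mul]
      simpa [sub_eq_zero] using h4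
    have h1 : ∀ i, ((e i : ℂ)) ^ 5 = 1 := fun i => hx5 _ (Polynomial.mem_rootSet.1 (e i).2).2
    apply Finset.prod_eq_one
    intro i _
    unfold bvec
    split_ifs
    · rw [show (2 * ((5 : ℕ) : ℤ)) = ((5 * 2 : ℕ) : ℤ) by norm_num, zpow_natCast, pow_mul, h1, one_pow]
    · rw [zpow_natCast, h1]

/-- Q1 fails: for every `d ≥ 3` and `c ≥ 1` the vector `(c, …, c, 2c)` satisfies neither (A) nor (B), but every
solution is a root of unity. For `d = 4`, `c = 5` solutions do exist (roots of unity of order 5). -/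
theorem result :
    (∀ d c : ℕ, 3 ≤ d → 1 ≤ c → ¬ CondA (bvec d c) ∧ ¬ CondB (bvec d c) ∧
      ∀ (α : ℂ) (a : Fin d → ℂ), IsSolution (bvec d c) α a → RootOfUnity α) ∧
    (∃ (α : ℂ) (a : Fin 4 → ℂ), IsSolution (bvec 4 5) α a) ∧ ¬ Q1 := by
  refine ⟨fun d c hd hc => ⟨not_A d c hd hc, not_B d c hd, fun α a h => sol_root d c hd hc α a h⟩, exists_sol, ?_⟩
  intro h
  obtain ⟨α, a, hs, hn⟩ := h 3 (by norm_num) (bvec 3 1) (not_A 3 1 le_rfl le_rfl) (not_B 3 1 le_rfl)
  exact hn (sol_root 3 1 le_rfl le_rfl α a hs)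

end Pool.Agent.Results.MP_e29efe_nt.Disproof
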